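import Pool.Agent.X237.PQ.Mat

/-!
# The finite criterion for hereditary structural completeness of `⊢_A`
-/

set_option autoImplicit false

namespace Pool.Agent.X237.PQ

open Pool.Agent.H877R3.HSC RA

/-- An algebra that satisfies all rules valid in `R'` and is finite is separated by the
homomorphisms to `R'`. -/
theorem sep_of_valid {m : ℕ} {R : RA (Fin m)} {Y : Type} {R' : RA Y} (hR : Good R)
    (hR' : Good R') (h : ∀ (Γ : Finset Fm) (β : Fm), R'.Valid Γ β → R.Valid Γ β) : Sep R R' := by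
  intro x y hxy
  by_contra hno
  push Not at hno
  have h2 := h (dg R) (Fm.iff (Fm.var x) (Fm.var y)) (fun w hw => by
    have hhom : IsHom R R' (fun i => w i) := (dg_iff R hR' w).1 hw
    have := hno _ hhom
    rw [eval_iff]
    simp only [RA.eval]
    rw [this, hR'.refl])
  have hm : 0 < m := lt_of_le_of_lt (Nat.zero_le _) x.2
  have h3 := h2 (fun i => if h : i < m then ⟨i, h⟩ else ⟨0, hm⟩) (fun D hD => by
    refine (dg_iff R hR _).2 ?_ D hD
    have : (fun i : Fin m => (if h : (i : ℕ) < m then (⟨i, h⟩ : Fin m) else ⟨0, hm⟩)) =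
        fun i => i := by
      funext i; simp
    rw [this]
    exact ⟨fun _ _ => rfl, fun _ _ => rfl, fun _ _ => rfl, rfl⟩)
  rw [eval_iff] at h3
  apply hxy
  have := hR.eq _ _ h3
  simpa [RA.eval] using this

/-- Homomorphic images satisfy the same theorems. -/
theorem valid_empty_of_surj {X Y : Type} {C : RA X} {B : RA Y} {g : X → Y}
    (gs : Function.Surjective g) (hg : IsHom C B g) (φ : Fm) (h : C.Valid ∅ φ) :
    B.Valid ∅ φ := by
  intro v _
  choose w hw using gs
  have := h (fun i => w (v i)) (by simp)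
  have h2 : B.eval v φ = g (C.eval (fun i => w (v i)) φ) := by
    rw [hg.eval]; simp only [hw]
  rw [h2, this, hg.top]

theorem sys2_extends {A : Type} [HeytingAlgebra A] [Finite A] {X Y : Type} {B : RA X} {C : RA Y}
    (hB : Sep B (ofH A)) (hC : Sep C (ofH A)) : (sys2 B C).Extends (matSystem A) := by
  intro Γ β h
  obtain ⟨Δ, h1, h2, h3⟩ := mat_finitary Γ β h
  have h4 : (ofH A).Valid h2.toFinset β := by
    rw [valid_ofH]
    intro v hv
    exact h3 v fun C hC => hv C (by simpa using hC)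
  exact ⟨h2.toFinset, by simpa using h1, hB.valid h4, hC.valid h4⟩

theorem sep_of_hsc {A : Type} [HeytingAlgebra A] [Finite A]
    (hS : (matSystem A).HereditarilyStructurallyComplete)
    {m l : ℕ} (B : RA (Fin m)) (C : RA (Fin l)) (hB : Sep B (ofH A)) (hC : Sep C (ofH A))
    (g : Fin l → Fin m) (gs : Function.Surjective g) (hg : IsHom C B g) : Sep B C := by
  have hBg := hB.good (good_ofH A)
  have hCg := hC.good (good_ofH A)
  intro x y hxy
  by_contra hno
  push Not at hno
  have hthm : ∀ φ : Fm, (sys2 B C).der ∅ φ ↔ C.Valid ∅ φ := by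
    intro φ
    constructor
    · rintro ⟨Δ, h1, h2, h3⟩
      have : Δ = ∅ := by simpa using h1
      subst this
      exact h3
    · intro h
      exact ⟨∅, by simp, valid_empty_of_surj gs hg φ h, h⟩
  have hadm : (sys2 B C).Admissible (dg B) (Fm.iff (Fm.var x) (Fm.var y)) := by
    intro σ hσ
    rw [hthm]
    intro w _
    rw [eval_subst, eval_iff]
    have hhom : IsHom B C (fun i => C.eval w (σ i)) := by
      refine (dg_iff B hCg (fun i => C.eval w (σ i))).1 fun D hD => ?_
      rw [← eval_subst]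
      exact (hthm _).1 (hσ D hD) w (by simp)
    have := hno _ hhom
    simp only [RA.eval]
    rw [this, hCg.refl]
  obtain ⟨Δ, h1, h2, _⟩ := hS _ (sys2_extends hB hC) _ _ hadm
  have hm : 0 < m := lt_of_le_of_lt (Nat.zero_le _) x.2
  have h3 := h2 (fun i => if h : i < m then ⟨i, h⟩ else ⟨0, hm⟩) (fun D hD => by
    refine (dg_iff B hBg _).2 ?_ D (by exact_mod_cast h1 hD)
    have : (fun i : Fin m => (if h : (i : ℕ) < m then (⟨i, h⟩ : Fin m) else ⟨0, hm⟩)) =
        fun i => i := by
      funext i; simp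
    rw [this]
    exact ⟨fun _ _ => rfl, fun _ _ => rfl, fun _ _ => rfl, rfl⟩)
  rw [eval_iff] at h3
  apply hxy
  have := hBg.eq _ _ h3
  simpa [RA.eval] using this

/-- The criterion: for finite `B`, `C` (with at most `N₁`, `N₂` elements) in the quasivariety
generated by `A` such that `B` is a homomorphic image of `C`, the homomorphisms from `B` to `C`
separate points. -/
def Crit (A : Type) [HeytingAlgebra A] (N₁ N₂ : ℕ) : Prop :=
  ∀ m ≤ N₁, ∀ l ≤ N₂, ∀ (B : RA (Fin m)) (C : RA (Fin l)), Sep B (ofH A) → Sep C (ofH A) →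
    (∃ g : Fin l → Fin m, Function.Surjective g ∧ IsHom C B g) → Sep B C

/-- The image of the formula algebra under a homomorphism to a finite algebra. -/
theorem image_exists {A : Type} [HeytingAlgebra A] {n : ℕ} (e : A ≃ Fin n) (f : Fm → A)
    (hf : IsHom fm (ofH A) f) :
    ∃ (m : ℕ) (B : RA (Fin m)) (clB : Fm → Fin m), m ≤ n ∧
      Function.Surjective clB ∧ IsHom fm B clB ∧ (∀ φ ψ, clB φ = clB ψ ↔ f φ = f ψ) ∧
      Sep B (ofH A) := by
  classical
  let _ : Fintype A := Fintype.ofEquiv _ e.symm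
  have hcard : Fintype.card A = n := by
    rw [Fintype.card_congr e, Fintype.card_fin]
  obtain ⟨m, B, clB, hmle, hsB, hhB, hclB⟩ := quot_exists
    (fun φ ψ => f φ = f ψ)
    ⟨fun _ => rfl, fun h => h.symm, fun h h' => h.trans h'⟩
    (fun a a' b b' h h' => by
      have h1 := hf.inf a b
      have h2 := hf.inf a' b'
      change f (fm.inf a b) = f (fm.inf a' b')
      rw [h1, h2, h, h'])
    (fun a a' b b' h h' => by
      have h1 := hf.sup a b
      have h2 := hf.sup a' b'
      change f (fm.sup a b) = f (fm.sup a' b')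
      rw [h1, h2, h, h'])
    (fun a a' b b' h h' => by
      have h1 := hf.imp a b
      have h2 := hf.imp a' b'
      change f (fm.imp a b) = f (fm.imp a' b')
      rw [h1, h2, h, h'])
    f (fun _ _ h => h)
  have hsB' := hsB
  choose rep hrep using hsB
  have hr : ∀ φ, f (rep (clB φ)) = f φ := fun φ => (hclB _ _).1 (hrep _)
  refine ⟨m, B, clB, hmle.trans hcard.le, hsB', hhB, hclB, ?_⟩
  intro x y hxy
  refine ⟨fun b => f (rep b), ⟨?_, ?_, ?_, ?_⟩, ?_⟩
  · intro a b
    have h1 : B.inf a b = clB (fm.inf (rep a) (rep b)) := by rw [hhB.inf, hrep, hrep]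
    rw [h1, hr]
    exact hf.inf _ _
  · intro a b
    have h1 : B.sup a b = clB (fm.sup (rep a) (rep b)) := by rw [hhB.sup, hrep, hrep]
    rw [h1, hr]
    exact hf.sup _ _
  · intro a b
    have h1 : B.imp a b = clB (fm.imp (rep a) (rep b)) := by rw [hhB.imp, hrep, hrep]
    rw [h1, hr]
    exact hf.imp _ _
  · have h1 : B.bot = clB fm.bot := by rw [hhB.bot]
    rw [h1, hr]
    exact hf.bot
  · intro h
    apply hxy
    rw [← hrep x, ← hrep y, hclB]
    exact h

section

variable {A : Type} [HeytingAlgebra A] [Finite A] {n : ℕ} (e : A ≃ Fin n)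

theorem crit_of_hsc (hS : (matSystem A).HereditarilyStructurallyComplete)
    (N₁ N₂ : ℕ) : Crit A N₁ N₂ := by
  intro m _ l _ B C hB hC ⟨g, gs, hg⟩
  exact sep_of_hsc hS B C hB hC g gs hg

include e in
theorem hsc_of_crit (hcrit : Crit A n (n ^ (n ^ n))) :
    (matSystem A).HereditarilyStructurallyComplete := by
  classical
  have hn : 0 < n := lt_of_le_of_lt (Nat.zero_le _) (e ⊥).2
  intro S hS Γ β hadm
  by_contra hno
  -- step 1
  obtain ⟨k1, hk1⟩ := exists_bound_finset Γ
  obtain ⟨k2, hk2⟩ := exists_bound β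
  obtain ⟨k, hk, hkβ⟩ : ∃ k, (∀ φ ∈ Γ, φ.subst (trunc k) = φ) ∧ β.subst (trunc k) = β :=
    ⟨max k1 k2, hk1 _ (le_max_left _ _), hk2 _ (le_max_right _ _)⟩
  -- step 2
  obtain ⟨l', R', cl', -, hs', hh', hcl'⟩ := LT_exists hS e (↑Γ) (trunc k) k
    (fun j hj => by simp [trunc]; omega)
  have hsep' := LT_sep hS _ _ hs' hh' hcl'
  have htop' := LT_top hS _ _ hh' hcl'
  have hβ' : cl' β ≠ R'.top := by
    rw [Ne, htop', hkβ]; exact hno
  obtain ⟨f, hf, hfβ⟩ := hsep' _ _ hβ'
  -- the algebra B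
  obtain ⟨m, B, clB, hmle, hsB, hhB, hclB, hSepB⟩ := image_exists e (fun φ => f (cl' φ))
    (hf.comp hh')
  choose repB hrepB using hsB
  have hgoodB := hSepB.good (good_ofH A)
  -- step 5
  let τ : ℕ → Fm := fun j => if h : j < m then (repB ⟨j, h⟩).subst (trunc k) else Fm.bot
  have hττ : ∀ φ : Fm, (φ.subst τ).subst (trunc k) = φ.subst τ := by
    intro φ
    rw [Fm.subst_subst]
    congr 1
    funext i
    simp only [τ]
    split_ifs with h
    · exact trunc_trunc _ _
    · rfl
  obtain ⟨l2, R2, cl2, hl2, hs2, hh2, hcl2⟩ := LT_exists hS e (↑Γ) τ m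
    (fun j hj => by simp only [τ]; rw [dif_neg (by omega)])
  have hsep2 := LT_sep hS _ _ hs2 hh2 hcl2
  have hNN : n ^ (n ^ m) ≤ n ^ (n ^ n) :=
    Nat.pow_le_pow_right hn (Nat.pow_le_pow_right hn hmle)
  have hcrit2 : Sep B R2 := by
    refine hcrit m hmle l2 (hl2.trans hNN) B R2 hSepB hsep2 ?_
    choose rep2 hrep2 using hs2
    have hwd : ∀ φ, clB ((rep2 (cl2 φ)).subst τ) = clB (φ.subst τ) := by
      intro φ
      have h1 : S.der (↑Γ) ((Fm.iff (rep2 (cl2 φ)) φ).subst τ) := by
        rw [← hcl2, hrep2]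
      have h2 : cl' ((rep2 (cl2 φ)).subst τ) = cl' (φ.subst τ) := by
        rw [hcl', ← subst_iff, hττ]; exact h1
      rw [hclB]
      rw [h2]
    have hhomτ : IsHom fm B (fun φ => clB (φ.subst τ)) := hhB.comp (isHom_subst τ)
    refine ⟨fun x => clB ((rep2 x).subst τ), fun j => ⟨cl2 (Fm.var j), ?_⟩, ⟨?_, ?_, ?_, ?_⟩⟩
    · simp only
      rw [hwd]
      have h1 : (Fm.var (j : ℕ)).subst τ = (repB j).subst (trunc k) := by
        simp [Fm.subst, τ]
      rw [h1]
      conv_rhs => rw [← hrepB j]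
      rw [hclB]
      have h2 : cl' ((repB j).subst (trunc k)) = cl' (repB j) := by
        rw [hcl', subst_iff, trunc_trunc]
        exact der_iff_refl hS _ _
      rw [h2]
    · intro a b
      have h1 : R2.inf a b = cl2 (fm.inf (rep2 a) (rep2 b)) := by rw [hh2.inf, hrep2, hrep2]
      rw [h1, hwd]
      exact hhomτ.inf _ _
    · intro a b
      have h1 : R2.sup a b = cl2 (fm.sup (rep2 a) (rep2 b)) := by rw [hh2.sup, hrep2, hrep2]
      rw [h1, hwd]
      exact hhomτ.sup _ _
    · intro a b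
      have h1 : R2.imp a b = cl2 (fm.imp (rep2 a) (rep2 b)) := by rw [hh2.imp, hrep2, hrep2]
      rw [h1, hwd]
      exact hhomτ.imp _ _
    · have h1 : R2.bot = cl2 fm.bot := by rw [hh2.bot]
      rw [h1, hwd]
      exact hhomτ.bot
  -- step 6
  obtain ⟨l3, R3, cl3, hl3, hs3, hh3, hcl3⟩ := LT_exists hS e ∅ (trunc m) m
    (fun j hj => by simp [trunc]; omega)
  have hsep3 := LT_sep hS _ _ hs3 hh3 hcl3
  have hthm : ∀ θ : Fm, S.der ∅ θ → B.Valid ∅ θ := by
    intro θ hθ
    refine hcrit2.valid (LT_valid hS _ _ hs2 hh2 hcl2 ∅ θ fun ρ _ => ?_)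
    have h1 := S.structural _ _ ρ hθ
    have h2 := S.structural _ _ τ h1
    rw [Set.image_empty, Set.image_empty] at h2
    exact S.mono (Set.empty_subset _) h2
  let vB : ℕ → Fin m := fun j => if h : j < m then ⟨j, h⟩ else B.bot
  have hvB : ∀ φ : Fm, B.eval vB (φ.subst (trunc m)) = B.eval vB φ := by
    intro φ
    rw [eval_subst]
    congr 1
    funext i
    simp only [trunc, vB]
    split_ifs with h
    · simp [RA.eval, h]
    · rfl
  have hcrit3 : Sep B R3 := by
    refine hcrit m hmle l3 (hl3.trans hNN) B R3 hSepB hsep3 ?_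
    choose rep3 hrep3 using hs3
    have hwd : ∀ φ, B.eval vB (rep3 (cl3 φ)) = B.eval vB φ := by
      intro φ
      have h1 : S.der ∅ ((Fm.iff (rep3 (cl3 φ)) φ).subst (trunc m)) := by
        rw [← hcl3, hrep3]
      have h2 := hthm _ h1 vB (by simp)
      rw [hvB, eval_iff] at h2
      exact hgoodB.eq _ _ h2
    have hhomv := isHom_eval B vB
    refine ⟨fun x => B.eval vB (rep3 x), fun j => ⟨cl3 (Fm.var j), ?_⟩, ⟨?_, ?_, ?_, ?_⟩⟩
    · simp only
      rw [hwd]
      simp [RA.eval, vB]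
    · intro a b
      have h1 : R3.inf a b = cl3 (fm.inf (rep3 a) (rep3 b)) := by rw [hh3.inf, hrep3, hrep3]
      rw [h1, hwd]
      exact hhomv.inf _ _
    · intro a b
      have h1 : R3.sup a b = cl3 (fm.sup (rep3 a) (rep3 b)) := by rw [hh3.sup, hrep3, hrep3]
      rw [h1, hwd]
      exact hhomv.sup _ _
    · intro a b
      have h1 : R3.imp a b = cl3 (fm.imp (rep3 a) (rep3 b)) := by rw [hh3.imp, hrep3, hrep3]
      rw [h1, hwd]
      exact hhomv.imp _ _
    · have h1 : R3.bot = cl3 fm.bot := by rw [hh3.bot]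
      rw [h1, hwd]
      exact hhomv.bot
  -- step 7
  have hvalid3 : R3.Valid Γ β := by
    refine LT_valid hS _ _ hs3 hh3 hcl3 Γ β fun ρ h => ?_
    rw [Fm.subst_subst]
    refine hadm _ fun C hC => ?_
    rw [← Fm.subst_subst]
    exact h C hC
  -- step 8
  have hvalidB : B.Valid Γ β := hcrit3.valid hvalid3
  -- step 9
  have key : ∀ φ : Fm, B.eval (fun i => clB (Fm.var i)) φ = clB φ := by
    intro φ
    have h1 := hhB.eval Fm.var φ
    rw [← h1, fm_eval, Fm.subst_var]
  have h9 := hvalidB (fun i => clB (Fm.var i)) (fun C hC => by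
    rw [key, ← hhB.top, hclB]
    have : cl' C = cl' fm.top := by
      rw [hh'.top, htop', hk C hC]
      exact S.ax _ _ (by exact_mod_cast hC)
    rw [this])
  rw [key, ← hhB.top, hclB] at h9
  rw [hh'.top] at h9
  exact hfβ h9

include e in
theorem hsc_iff_crit : (matSystem A).HereditarilyStructurallyComplete ↔
    Crit A n (n ^ (n ^ n)) :=
  ⟨fun h => crit_of_hsc h _ _, fun h => hsc_of_crit e h⟩

end

end Pool.Agent.X237.PQ
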