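import Pool.Agent.X237.PQ.Prim

/-!
# The criterion as a bounded arithmetical formula
-/

set_option autoImplicit false

namespace Pool.Agent.X237.PQ

open Pool.Agent.H877R3.HSC RA

/-- The criterion in terms of the operation tables. -/
def CritM (x : List ℕ) : Prop :=
  ∀ m < xn x + 1, ∀ l < xM x + 1,
  ∀ bi < m ^ (m * m), ∀ bs < m ^ (m * m), ∀ bp < m ^ (m * m), ∀ bb < m,
  ∀ ci < l ^ (l * l), ∀ cs < l ^ (l * l), ∀ cp < l ^ (l * l), ∀ cb < l,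
  SepN m (opc bi m) (opc bs m) (opc bp m) bb (xn x) (xi x) (xs x) (xp x) (xb x) →
  SepN l (opc ci l) (opc cs l) (opc cp l) cb (xn x) (xi x) (xs x) (xp x) (xb x) →
  (∃ g < m ^ l, (∀ j < m, ∃ k < l, dig g m k = j) ∧
    HomN l (opc ci l) (opc cs l) (opc cp l) cb (opc bi m) (opc bs m) (opc bp m) bb
      (fun a => dig g m a)) →
  SepN m (opc bi m) (opc bs m) (opc bp m) bb l (opc ci l) (opc cs l) (opc cp l) cb

/-- The same as a bounded formula of arithmetic. -/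
def critF : Bf :=
  Fo.all 0 (Tm.add Fo.n (Tm.c 1)) fun m => Fo.all 1 (Tm.add Fo.M (Tm.c 1)) fun l =>
  Fo.all 2 (Tm.pow m (Tm.mul m m)) fun bi => Fo.all 3 (Tm.pow m (Tm.mul m m)) fun bs =>
  Fo.all 4 (Tm.pow m (Tm.mul m m)) fun bp => Fo.all 5 m fun bb =>
  Fo.all 6 (Tm.pow l (Tm.mul l l)) fun ci => Fo.all 7 (Tm.pow l (Tm.mul l l)) fun cs =>
  Fo.all 8 (Tm.pow l (Tm.mul l l)) fun cp => Fo.all 9 l fun cb =>
  Bf.imp (Fo.sep 10 m (Fo.opT bi m) (Fo.opT bs m) (Fo.opT bp m) bb Fo.n Fo.iT Fo.sT Fo.pT Fo.b0)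
  (Bf.imp (Fo.sep 10 l (Fo.opT ci l) (Fo.opT cs l) (Fo.opT cp l) cb Fo.n Fo.iT Fo.sT Fo.pT Fo.b0)
  (Bf.imp (Fo.ex 10 (Tm.pow m l) fun g => Bf.and
      (Fo.all 11 m fun j => Fo.ex 12 l fun k => Bf.eq (Fo.digT g m k) j)
      (Fo.hom 11 l (Fo.opT ci l) (Fo.opT cs l) (Fo.opT cp l) cb (Fo.opT bi m) (Fo.opT bs m)
        (Fo.opT bp m) bb (fun a => Fo.digT g m a)))
  (Fo.sep 10 m (Fo.opT bi m) (Fo.opT bs m) (Fo.opT bp m) bb l (Fo.opT ci l) (Fo.opT cs l)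
    (Fo.opT cp l) cb)))

set_option maxRecDepth 100000 in
theorem critF_holds (x : List ℕ) : critF.holds x [] ↔ CritM x := by
  simp only [critF, Fo.hom, Fo.sep, Fo.all, Fo.ex, Fo.opT, Fo.digT, Fo.n,
    Fo.b0, Fo.iT, Fo.sT, Fo.pT, Fo.P, Fo.M, Bf.holds, Tm.ev, List.nil_append, List.cons_append,
    List.getD_cons_zero, List.getD_cons_succ, Nat.reduceAdd]
  rfl

section

variable {A : Type} [HeytingAlgebra A] {n : ℕ} (e : A ≃ Fin n)

theorem sep_toRA {X : Type} (B : RA X) : Sep B (toRA e) ↔ Sep B (ofH A) := by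
  constructor
  · intro h x y hxy
    obtain ⟨f, hf, hne⟩ := h x y hxy
    exact ⟨_, (isHom_toRA_symm e).comp hf, fun h => hne (e.symm.injective h)⟩
  · intro h x y hxy
    obtain ⟨f, hf, hne⟩ := h x y hxy
    exact ⟨_, (isHom_toRA e).comp hf, fun h => hne (e.injective h)⟩

theorem critM_iff : CritM (tables e) ↔ Crit A n (n ^ (n ^ n)) := by
  have rep := rep_tables e
  constructor
  · intro h m hm l hl B C hB hC ⟨g, gs, hg⟩
    obtain ⟨bi, hbi, bs, hbs, bp, hbp, bb, hbb, rB⟩ := rep_code B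
    obtain ⟨ci, hci, cs, hcs, cp, hcp, cb, hcb, rC⟩ := rep_code C
    have h1 := h m (Nat.lt_succ_of_le hm) l (Nat.lt_succ_of_le hl) bi hbi bs hbs bp hbp bb hbb
      ci hci cs hcs cp hcp cb hcb ((sepN_iff rB rep).2 ((sep_toRA e B).2 hB))
      ((sepN_iff rC rep).2 ((sep_toRA e C).2 hC))
    rw [sepN_iff rB rC] at h1
    apply h1
    have hm0 : 0 < m := lt_of_le_of_lt (Nat.zero_le _) hbb
    obtain ⟨c, hc, h3⟩ := exists_dig l m (fun a => if ha : a < l then g ⟨a, ha⟩ else 0)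
      (fun i hi => by simp [hi])
    refine ⟨c, hc, fun j hj => ?_, (homN_iff rC rB g _ fun a => ?_).2 hg⟩
    · obtain ⟨k, hk⟩ := gs ⟨j, hj⟩
      refine ⟨k, k.2, ?_⟩
      rw [h3 k k.2, dif_pos k.2]
      exact congrArg Fin.val hk
    · rw [h3 a a.2]; simp
  · intro h m hm l hl bi hbi bs hbs bp hbp bb hbb ci hci cs hcs cp hcp cb hcb h1 h2 h3
    obtain ⟨B, rB⟩ := rep_decode bi bs bp bb hbb
    obtain ⟨C, rC⟩ := rep_decode ci cs cp cb hcb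
    rw [sepN_iff rB rC]
    refine h m (Nat.le_of_lt_succ hm) l (Nat.le_of_lt_succ hl) B C
      ((sep_toRA e B).1 ((sepN_iff rB rep).1 h1)) ((sep_toRA e C).1 ((sepN_iff rC rep).1 h2)) ?_
    obtain ⟨g, hg, hs, hh⟩ := h3
    have hm0 : 0 < m := lt_of_le_of_lt (Nat.zero_le _) hbb
    refine ⟨fun a => ⟨dig g m a, dig_lt hm0 _ _⟩, fun j => ?_,
      (homN_iff rC rB _ _ fun _ => rfl).1 hh⟩
    obtain ⟨k, hk, hkj⟩ := hs j j.2
    exact ⟨⟨k, hk⟩, Fin.ext hkj⟩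

end

end Pool.Agent.X237.PQ
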