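import Pool.Agent.H877R3.HSC.Decode

/-!
# The deductive system of a finite Heyting algebra and its extensions
-/

set_option autoImplicit false

namespace Pool.Agent.X237.PQ

open Pool.Agent.H877R3.HSC RA

theorem eval_congr_loc {A : Type} [HeytingAlgebra A] (φ : Fm) :
    ∃ k : ℕ, ∀ u v : ℕ → A, (∀ i < k, u i = v i) → φ.eval u = φ.eval v := by
  induction φ with
  | var i => exact ⟨i + 1, fun u v h => h i (Nat.lt_succ_self i)⟩
  | bot => exact ⟨0, fun _ _ _ => rfl⟩
  | and a b iha ihb =>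
    obtain ⟨p, hp⟩ := iha
    obtain ⟨q, hq⟩ := ihb
    refine ⟨max p q, fun u v h => ?_⟩
    simp only [Fm.eval]
    rw [hp u v fun i hi => h i (lt_max_of_lt_left hi), hq u v fun i hi => h i (lt_max_of_lt_right hi)]
  | or a b iha ihb =>
    obtain ⟨p, hp⟩ := iha
    obtain ⟨q, hq⟩ := ihb
    refine ⟨max p q, fun u v h => ?_⟩
    simp only [Fm.eval]
    rw [hp u v fun i hi => h i (lt_max_of_lt_left hi), hq u v fun i hi => h i (lt_max_of_lt_right hi)]
  | imp a b iha ihb =>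
    obtain ⟨p, hp⟩ := iha
    obtain ⟨q, hq⟩ := ihb
    refine ⟨max p q, fun u v h => ?_⟩
    simp only [Fm.eval]
    rw [hp u v fun i hi => h i (lt_max_of_lt_left hi), hq u v fun i hi => h i (lt_max_of_lt_right hi)]

/-- Compactness of the consequence relation of a finite algebra. -/
theorem mat_finitary {A : Type} [HeytingAlgebra A] [Finite A] (Γ : Set Fm) (φ : Fm)
    (h : ∀ v : ℕ → A, (∀ C ∈ Γ, C.eval v = ⊤) → φ.eval v = ⊤) :
    ∃ Δ : Set Fm, Δ ⊆ Γ ∧ Δ.Finite ∧ ∀ v : ℕ → A, (∀ C ∈ Δ, C.eval v = ⊤) → φ.eval v = ⊤ := by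
  classical
  let _ : TopologicalSpace A := ⊥
  have : DiscreteTopology A := ⟨rfl⟩
  have hcont : ∀ C : Fm, Continuous (fun v : ℕ → A => C.eval v) := by
    intro C
    induction C with
    | var i => exact continuous_apply i
    | bot => exact continuous_const
    | and a b iha ihb =>
      exact (continuous_of_discreteTopology (f := fun p : A × A => p.1 ⊓ p.2)).comp
        (iha.prodMk ihb)
    | or a b iha ihb =>
      exact (continuous_of_discreteTopology (f := fun p : A × A => p.1 ⊔ p.2)).comp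
        (iha.prodMk ihb)
    | imp a b iha ihb =>
      exact (continuous_of_discreteTopology (f := fun p : A × A => p.1 ⇨ p.2)).comp
        (iha.prodMk ihb)
  let K : Γ → Set (ℕ → A) := fun C => {v | (C : Fm).eval v = ⊤}
  have hK : ∀ C, IsClosed (K C) := fun C =>
    (isClosed_discrete ({⊤} : Set A)).preimage (hcont C)
  let L : Set (ℕ → A) := {v | φ.eval v ≠ ⊤}
  have hL : IsClosed L := (isClosed_discrete ({⊤}ᶜ : Set A)).preimage (hcont φ)
  have hempty : L ∩ ⋂ C, K C = ∅ := by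
    rw [Set.eq_empty_iff_forall_notMem]
    rintro v ⟨h1, h2⟩
    apply h1
    apply h v
    intro C hC
    exact Set.mem_iInter.1 h2 ⟨C, hC⟩
  obtain ⟨t, ht⟩ := hL.isCompact.elim_finite_subfamily_closed K hK hempty
  refine ⟨↑(t.image Subtype.val), ?_, Finset.finite_toSet _, ?_⟩
  · intro C hC
    simp only [Finset.coe_image, Set.mem_image, Finset.mem_coe] at hC
    obtain ⟨C', _, rfl⟩ := hC
    exact C'.2
  · intro v hv
    by_contra hne
    have : v ∈ L ∩ ⋂ C ∈ t, K C := by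
      refine ⟨hne, Set.mem_iInter₂.2 fun C hC => ?_⟩
      exact hv C (by
        simp only [Finset.coe_image, Set.mem_image, Finset.mem_coe]
        exact ⟨C, hC, rfl⟩)
    rw [ht] at this
    exact this

/-- The deductive system `⊢_A` of a finite Heyting algebra `A`: `Γ ⊢ φ` iff every valuation in `A`
that sends all members of `Γ` to the top element sends `φ` to the top element. -/
def matSystem (A : Type) [HeytingAlgebra A] [Finite A] : DedSys where
  der := fun Γ φ => ∀ v : ℕ → A, (∀ C ∈ Γ, C.eval v = ⊤) → φ.eval v = ⊤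
  ax := fun _ φ h _ hv => hv φ h
  cut := fun _ _ _ h hA v hv => hA v fun B hB => h B hB v hv
  finitary := fun Γ φ h => mat_finitary Γ φ h
  structural := fun Γ φ σ h v hv => by
    rw [Fm.eval_subst]
    apply h
    intro C hC
    rw [← Fm.eval_subst]
    exact hv _ ⟨C, hC, rfl⟩

section

variable {A : Type} [HeytingAlgebra A]

theorem valid_ofH {Γ : Finset Fm} {β : Fm} :
    (ofH A).Valid Γ β ↔ ∀ v : ℕ → A, (∀ C ∈ Γ, C.eval v = ⊤) → β.eval v = ⊤ := by
  unfold RA.Valid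
  simp only [ofH_eval, ofH_top]

variable [Finite A] {S : DedSys} (hS : S.Extends (matSystem A))

include hS

theorem der_of_valid (Γ : Set Fm) (θ : Fm) (h : ∀ u : ℕ → A, θ.eval u = ⊤) : S.der Γ θ :=
  hS Γ θ fun v _ => h v

theorem der_mp (Γ : Set Fm) (a b : Fm) (h1 : S.der Γ a) (h2 : S.der Γ (Fm.imp a b)) :
    S.der Γ b := by
  have h4 : S.der {a, Fm.imp a b} b := hS _ _ fun v hv => by
    have e1 := hv a (Or.inl rfl)
    have e2 : a.eval v ⇨ b.eval v = ⊤ := hv (Fm.imp a b) (Or.inr rfl)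
    rw [himp_eq_top_iff, e1] at e2
    exact top_unique e2
  refine S.cut _ _ _ ?_ h4
  intro B hB
  simp only [Set.mem_insert_iff, Set.mem_singleton_iff] at hB
  rcases hB with rfl | rfl
  · exact h1
  · exact h2

theorem der_of_le (Γ : Set Fm) (a b : Fm) (h1 : S.der Γ a)
    (h : ∀ u : ℕ → A, a.eval u ≤ b.eval u) : S.der Γ b :=
  der_mp hS Γ a b h1 (der_of_valid hS Γ _ fun u => himp_eq_top_iff.2 (h u))

theorem der_of_le₂ (Γ : Set Fm) (a b c : Fm) (h1 : S.der Γ a) (h2 : S.der Γ b)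
    (h : ∀ u : ℕ → A, a.eval u ⊓ b.eval u ≤ c.eval u) : S.der Γ c := by
  refine der_mp hS Γ b c h2 (der_of_le hS Γ a _ h1 fun u => ?_)
  exact le_himp_iff.2 (h u)

theorem der_iff_refl (Γ : Set Fm) (a : Fm) : S.der Γ (Fm.iff a a) :=
  der_of_valid hS Γ _ fun u => by simp [Fm.iff, Fm.eval]

theorem der_iff_symm (Γ : Set Fm) (a b : Fm) (h : S.der Γ (Fm.iff a b)) :
    S.der Γ (Fm.iff b a) :=
  der_of_le hS Γ _ _ h fun u => by simp only [Fm.iff, Fm.eval]; rw [inf_comm]

theorem der_iff_trans (Γ : Set Fm) (a b c : Fm) (h : S.der Γ (Fm.iff a b))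
    (h' : S.der Γ (Fm.iff b c)) : S.der Γ (Fm.iff a c) :=
  der_of_le₂ hS Γ _ _ _ h h' fun u => by
    simp only [Fm.iff, Fm.eval]
    generalize a.eval u = a, b.eval u = b, c.eval u = c
    rw [le_biimp]
    set p := (a ⇨ b) ⊓ (b ⇨ a) ⊓ ((b ⇨ c) ⊓ (c ⇨ b)) with hp
    have h1 : p ⊓ a = p ⊓ b := (le_biimp _ _ _).1 inf_le_left
    have h2 : p ⊓ b = p ⊓ c := (le_biimp _ _ _).1 inf_le_right
    exact h1.trans h2

theorem der_iff_and (Γ : Set Fm) (a a' b b' : Fm) (h : S.der Γ (Fm.iff a a'))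
    (h' : S.der Γ (Fm.iff b b')) : S.der Γ (Fm.iff (Fm.and a b) (Fm.and a' b')) :=
  der_of_le₂ hS Γ _ _ _ h h' fun u => by
    simp only [Fm.iff, Fm.eval]
    generalize a.eval u = a, b.eval u = b, a'.eval u = a', b'.eval u = b'
    rw [le_biimp]
    set p := (a ⇨ a') ⊓ (a' ⇨ a) ⊓ ((b ⇨ b') ⊓ (b' ⇨ b)) with hp
    have h1 : p ⊓ a = p ⊓ a' := (le_biimp _ _ _).1 inf_le_left
    have h2 : p ⊓ b = p ⊓ b' := (le_biimp _ _ _).1 inf_le_right
    rw [inf_inf_distrib_left, h1, h2, ← inf_inf_distrib_left]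

theorem der_iff_or (Γ : Set Fm) (a a' b b' : Fm) (h : S.der Γ (Fm.iff a a'))
    (h' : S.der Γ (Fm.iff b b')) : S.der Γ (Fm.iff (Fm.or a b) (Fm.or a' b')) :=
  der_of_le₂ hS Γ _ _ _ h h' fun u => by
    simp only [Fm.iff, Fm.eval]
    generalize a.eval u = a, b.eval u = b, a'.eval u = a', b'.eval u = b'
    rw [le_biimp]
    set p := (a ⇨ a') ⊓ (a' ⇨ a) ⊓ ((b ⇨ b') ⊓ (b' ⇨ b)) with hp
    have h1 : p ⊓ a = p ⊓ a' := (le_biimp _ _ _).1 inf_le_left
    have h2 : p ⊓ b = p ⊓ b' := (le_biimp _ _ _).1 inf_le_right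
    rw [inf_sup_left, h1, h2, ← inf_sup_left]

theorem der_iff_imp (Γ : Set Fm) (a a' b b' : Fm) (h : S.der Γ (Fm.iff a a'))
    (h' : S.der Γ (Fm.iff b b')) : S.der Γ (Fm.iff (Fm.imp a b) (Fm.imp a' b')) :=
  der_of_le₂ hS Γ _ _ _ h h' fun u => by
    simp only [Fm.iff, Fm.eval]
    generalize a.eval u = a, b.eval u = b, a'.eval u = a', b'.eval u = b'
    rw [le_biimp]
    set p := (a ⇨ a') ⊓ (a' ⇨ a) ⊓ ((b ⇨ b') ⊓ (b' ⇨ b)) with hp
    have h1 : p ⊓ a = p ⊓ a' := (le_biimp _ _ _).1 inf_le_left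
    have h2 : p ⊓ b = p ⊓ b' := (le_biimp _ _ _).1 inf_le_right
    exact inf_himp_congr h1 h2

/-- The formula `⊥ → ⊥` -/
theorem der_iff_top (Γ : Set Fm) (a : Fm) :
    S.der Γ (Fm.iff a (Fm.imp Fm.bot Fm.bot)) ↔ S.der Γ a := by
  constructor
  · intro h
    exact der_of_le hS Γ _ _ h fun u => by simp [Fm.iff, Fm.eval]
  · intro h
    exact der_of_le hS Γ _ _ h fun u => by simp [Fm.iff, Fm.eval]

/-- Lindenbaum algebras. -/
theorem LT_exists {n : ℕ} (e : A ≃ Fin n) (Γ : Set Fm) (τ : ℕ → Fm) (m : ℕ)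
    (hτ : ∀ j, m ≤ j → τ j = Fm.bot) :
    ∃ (l : ℕ) (R : RA (Fin l)) (cl : Fm → Fin l),
      l ≤ n ^ (n ^ m) ∧
      Function.Surjective cl ∧ IsHom fm R cl ∧
      ∀ φ ψ, cl φ = cl ψ ↔ S.der Γ ((Fm.iff φ ψ).subst τ) := by
  classical
  let _ : Fintype A := Fintype.ofEquiv _ e.symm
  have hcard : Fintype.card A = n := by
    rw [Fintype.card_congr e, Fintype.card_fin]
  have hK : Fintype.card ((Fin m → A) → A) = n ^ (n ^ m) := by
    simp [Fintype.card_pi, hcard]
  rw [← hK]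
  refine quot_exists (fun φ ψ => S.der Γ ((Fm.iff φ ψ).subst τ)) ⟨?_, ?_, ?_⟩ ?_ ?_ ?_
    (fun φ v => φ.eval (fun i => if h : i < m then v ⟨i, h⟩ else ⊥)) ?_
  · intro a
    exact der_iff_refl hS Γ _
  · intro a b h
    exact der_iff_symm hS Γ _ _ h
  · intro a b c h h'
    exact der_iff_trans hS Γ _ _ _ h h'
  · intro a a' b b' h h'
    exact der_iff_and hS Γ _ _ _ _ h h'
  · intro a a' b b' h h'
    exact der_iff_or hS Γ _ _ _ _ h h'
  · intro a a' b b' h h'
    exact der_iff_imp hS Γ _ _ _ _ h h'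
  · intro φ ψ h
    have h1 : ∀ u : ℕ → A,
        ((Fm.iff φ ψ).subst (fun i => if i < m then Fm.var i else Fm.bot)).eval u = ⊤ := by
      intro u
      rw [Fm.eval_subst]
      have h2 := congrFun h (fun i => u i)
      have h3 : (fun i => (if i < m then Fm.var i else Fm.bot : Fm).eval u) =
          (fun i => if h : i < m then (fun i : Fin m => u i) ⟨i, h⟩ else ⊥) := by
        funext i
        split_ifs <;> rfl
      rw [h3]
      simp only [Fm.iff, Fm.eval]
      rw [h2]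
      simp
    have h2 : S.der ∅ _ := der_of_valid hS ∅ _ h1
    have h3 := S.structural _ _ τ h2
    rw [Set.image_empty, Fm.subst_subst] at h3
    have h4 : (fun i => (if i < m then Fm.var i else Fm.bot : Fm).subst τ) = τ := by
      funext i
      split_ifs with hi
      · rfl
      · rw [hτ i (by omega)]; rfl
    rw [h4] at h3
    exact S.mono (Set.empty_subset _) h3

/-- Lindenbaum algebras are separated by homomorphisms to `A`. -/
theorem LT_sep (Γ : Set Fm) (τ : ℕ → Fm) {l : ℕ} {R : RA (Fin l)} {cl : Fm → Fin l}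
    (hs : Function.Surjective cl) (hh : IsHom fm R cl)
    (hcl : ∀ φ ψ, cl φ = cl ψ ↔ S.der Γ ((Fm.iff φ ψ).subst τ)) : Sep R (ofH A) := by
  intro x y hxy
  by_contra hno
  push Not at hno
  choose rep hrep using hs
  have h1 : S.der (↑(dg R)) (Fm.iff (Fm.var x) (Fm.var y)) := by
    refine hS _ _ fun w hw => ?_
    have hhom : IsHom R (ofH A) (fun i => w i) := by
      refine (dg_iff R (good_ofH A) w).1 fun D hD => ?_
      rw [ofH_eval, ofH_top]
      exact hw D (by exact_mod_cast hD)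
    have := hno _ hhom
    simp only [Fm.iff, Fm.eval]
    rw [this]
    simp
  have h2 := S.structural _ _ (fun i => if h : i < l then (rep ⟨i, h⟩).subst τ else Fm.bot) h1
  have h3 : S.der Γ _ := S.cut Γ _ _ (by
    rintro _ ⟨D, hD, rfl⟩
    have hD' : D ∈ dg R := by exact_mod_cast hD
    clear hD
    revert D
    rw [forall_dg]
    refine ⟨fun i j => ?_, fun i j => ?_, fun i j => ?_, ?_⟩
    · have : S.der Γ ((Fm.iff (rep (R.inf i j)) (Fm.and (rep i) (rep j))).subst τ) := by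
        rw [← hcl, hrep, show Fm.and (rep i) (rep j) = fm.inf (rep i) (rep j) from rfl, hh.inf,
          hrep, hrep]
      simpa [Fm.iff, Fm.subst] using this
    · have : S.der Γ ((Fm.iff (rep (R.sup i j)) (Fm.or (rep i) (rep j))).subst τ) := by
        rw [← hcl, hrep, show Fm.or (rep i) (rep j) = fm.sup (rep i) (rep j) from rfl, hh.sup,
          hrep, hrep]
      simpa [Fm.iff, Fm.subst] using this
    · have : S.der Γ ((Fm.iff (rep (R.imp i j)) (Fm.imp (rep i) (rep j))).subst τ) := by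
        rw [← hcl, hrep, show Fm.imp (rep i) (rep j) = fm.imp (rep i) (rep j) from rfl, hh.imp,
          hrep, hrep]
      simpa [Fm.iff, Fm.subst] using this
    · have : S.der Γ ((Fm.iff (rep R.bot) Fm.bot).subst τ) := by
        rw [← hcl, hrep, show Fm.bot = fm.bot from rfl, hh.bot]
      simpa [Fm.iff, Fm.subst] using this) h2
  apply hxy
  rw [← hrep x, ← hrep y, hcl]
  simpa [Fm.iff, Fm.subst] using h3

theorem LT_top (Γ : Set Fm) (τ : ℕ → Fm) {l : ℕ} {R : RA (Fin l)} {cl : Fm → Fin l}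
    (hh : IsHom fm R cl)
    (hcl : ∀ φ ψ, cl φ = cl ψ ↔ S.der Γ ((Fm.iff φ ψ).subst τ)) (φ : Fm) :
    cl φ = R.top ↔ S.der Γ (φ.subst τ) := by
  rw [← hh.top, hcl, ← der_iff_top hS Γ (φ.subst τ)]
  rfl

/-- Theorems of `S` are valid in Lindenbaum algebras. -/
theorem LT_valid (Γ : Set Fm) (τ : ℕ → Fm) {l : ℕ} {R : RA (Fin l)} {cl : Fm → Fin l}
    (hs : Function.Surjective cl) (hh : IsHom fm R cl)
    (hcl : ∀ φ ψ, cl φ = cl ψ ↔ S.der Γ ((Fm.iff φ ψ).subst τ)) (Δ : Finset Fm) (δ : Fm)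
    (h : ∀ ρ : ℕ → Fm, (∀ C ∈ Δ, S.der Γ ((C.subst ρ).subst τ)) → S.der Γ ((δ.subst ρ).subst τ)) :
    R.Valid Δ δ := by
  choose rep hrep using hs
  have key : ∀ (w : ℕ → Fin l) (φ : Fm), R.eval w φ = cl (φ.subst (fun i => rep (w i))) := by
    intro w φ
    rw [← fm_eval, hh.eval]
    simp only [hrep]
  intro w hw
  rw [key, LT_top hS Γ τ hh hcl]
  apply h
  intro C hC
  rw [← LT_top hS Γ τ hh hcl, ← key]
  exact hw C hC

end

end Pool.Agent.X237.PQ
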