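import Pool.Agent.X237.PQ.Crit

/-!
# Primitive quasivarieties
-/

set_option autoImplicit false

namespace Pool.Agent.X237.PQ

open Pool.Agent.H877R3.HSC RA

/-- A quasi-identity: finitely many equations between formulas (terms) as premises and one
equation as conclusion. -/
abbrev QId : Type := Finset (Fm × Fm) × (Fm × Fm)

/-- The Heyting algebra `H` satisfies the quasi-identity `q`. -/
def QSat (H : Type) [HeytingAlgebra H] (q : QId) : Prop :=
  ∀ v : ℕ → H, (∀ p ∈ q.1, p.1.eval v = p.2.eval v) → q.2.1.eval v = q.2.2.eval v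

/-- The Heyting algebra `H` satisfies the identity `p`. -/
def ISat (H : Type) [HeytingAlgebra H] (p : Fm × Fm) : Prop :=
  ∀ v : ℕ → H, p.1.eval v = p.2.eval v

/-- `H` belongs to the quasivariety `Q(A)` generated by `A`: it satisfies all quasi-identities
valid in `A`. -/
def InQ (A : Type) [HeytingAlgebra A] (H : Type) [HeytingAlgebra H] : Prop :=
  ∀ q : QId, QSat A q → QSat H q

/-- The quasivariety `Q(A)` is primitive: every subquasivariety of it (the class of all models of a
set `T` of quasi-identities, when contained in `Q(A)`) is a relative variety of it (the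
intersection of `Q(A)` with the class of all models of a set `E` of identities). -/
def Primitive (A : Type) [HeytingAlgebra A] : Prop :=
  ∀ T : Set QId, (∀ (H : Type) [HeytingAlgebra H], (∀ q ∈ T, QSat H q) → InQ A H) →
    ∃ E : Set (Fm × Fm), ∀ (H : Type) [HeytingAlgebra H],
      (∀ q ∈ T, QSat H q) ↔ (InQ A H ∧ ∀ p ∈ E, ISat H p)

/-- Satisfaction of quasi-identities in raw algebras. -/
def SatR {X : Type} (R : RA X) (q : QId) : Prop :=
  ∀ v : ℕ → X, (∀ p ∈ q.1, R.eval v p.1 = R.eval v p.2) → R.eval v q.2.1 = R.eval v q.2.2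

theorem satR_ofH {H : Type} [HeytingAlgebra H] (q : QId) : SatR (ofH H) q ↔ QSat H q := by
  unfold SatR QSat
  simp only [ofH_eval]

theorem sep_satR {X Y : Type} {R : RA X} {R' : RA Y} (hs : Sep R R') {q : QId}
    (h : SatR R' q) : SatR R q := by
  intro v hv
  by_contra hne
  obtain ⟨f, hf, hne⟩ := hs _ _ hne
  apply hne
  rw [hf.eval, hf.eval]
  apply h
  intro p hp
  rw [← hf.eval, ← hf.eval, hv p hp]

theorem valid_of_satR {X Y : Type} {R : RA X} {R' : RA Y} (h : ∀ q, SatR R' q → SatR R q)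
    (Γ : Finset Fm) (β : Fm) (hv : R'.Valid Γ β) : R.Valid Γ β := by
  classical
  have h1 := h (Γ.image (fun C => (C, Fm.imp Fm.bot Fm.bot)), (β, Fm.imp Fm.bot Fm.bot)) (by
    intro v hp
    apply hv v
    intro C hC
    exact hp (C, Fm.imp Fm.bot Fm.bot) (Finset.mem_image_of_mem _ hC))
  intro v hC
  apply h1 v
  intro p hp
  obtain ⟨C, hC', rfl⟩ := Finset.mem_image.1 hp
  exact hC C hC'

theorem sep_of_satR {m : ℕ} {R : RA (Fin m)} {Y : Type} {R' : RA Y} (hR : Good R)
    (hR' : Good R') (h : ∀ q, SatR R' q → SatR R q) : Sep R R' :=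
  sep_of_valid hR hR' (valid_of_satR h)

/-- Algebras separated by homomorphisms to a Heyting algebra are Heyting algebras. -/
theorem exists_heyting {A : Type} [HeytingAlgebra A] {X : Type} (R : RA X)
    (h : Sep R (ofH A)) : ∃ inst : HeytingAlgebra X, @ofH X inst = R := by
  classical
  let F : X → ({f : X → A // IsHom R (ofH A) f} → A) := fun x f => f.1 x
  have hF : Function.Injective F := by
    intro x y hxy
    by_contra hne
    obtain ⟨f, hf, hne⟩ := h x y hne
    exact hne (congrFun hxy ⟨f, hf⟩)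
  let _ : Max X := ⟨R.sup⟩
  let _ : Min X := ⟨R.inf⟩
  let _ : LE X := ⟨fun x y => F x ≤ F y⟩
  let _ : LT X := ⟨fun x y => F x < F y⟩
  let _ : Top X := ⟨R.top⟩
  let _ : Bot X := ⟨R.bot⟩
  let _ : HImp X := ⟨R.imp⟩
  let _ : Compl X := ⟨fun x => R.imp x R.bot⟩
  refine ⟨hF.heytingAlgebra F Iff.rfl Iff.rfl (fun a b => ?_) (fun a b => ?_) ?_ ?_
    (fun a => ?_) (fun a b => ?_), ?_⟩
  · funext f; exact f.2.sup a b
  · funext f; exact f.2.inf a b
  · funext f; exact f.2.top.trans (ofH_top A)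
  · funext f; exact f.2.bot
  · funext f
    have h1 : f.1 (R.imp a R.bot) = f.1 a ⇨ ⊥ := by rw [f.2.imp, f.2.bot]; rfl
    change f.1 (R.imp a R.bot) = (f.1 a)ᶜ
    rw [h1, himp_bot]
  · funext f; exact f.2.imp a b
  · rfl

theorem good_of_laws {X : Type} (R : RA X)
    (h1 : SatR R (∅, (Fm.iff (Fm.var 0) (Fm.var 0), Fm.imp Fm.bot Fm.bot)))
    (h2 : SatR R ({(Fm.iff (Fm.var 0) (Fm.var 1), Fm.imp Fm.bot Fm.bot)},
      (Fm.var 0, Fm.var 1))) : Good R := by
  refine ⟨fun x => ?_, fun x y hxy => ?_⟩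
  · exact h1 (fun _ => x) (by simp)
  · have := h2 (fun i => if i = 0 then x else y) (by
      intro p hp
      rw [Finset.mem_singleton] at hp
      subst hp
      simpa [RA.eval, eval_iff, RA.top] using hxy)
    simpa [RA.eval] using this

theorem laws_H (H : Type) [HeytingAlgebra H] :
    QSat H (∅, (Fm.iff (Fm.var 0) (Fm.var 0), Fm.imp Fm.bot Fm.bot)) ∧
    QSat H ({(Fm.iff (Fm.var 0) (Fm.var 1), Fm.imp Fm.bot Fm.bot)}, (Fm.var 0, Fm.var 1)) := by
  have hg := good_ofH H
  refine ⟨fun v _ => ?_, fun v hv => ?_⟩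
  · simp [Fm.iff, Fm.eval]
  · have h1 := hv (Fm.iff (Fm.var 0) (Fm.var 1), Fm.imp Fm.bot Fm.bot) (by simp)
    exact hg.eq _ _ h1

section

variable {A : Type} [HeytingAlgebra A]

theorem crit_of_primitive (hP : Primitive A) (N₁ N₂ : ℕ) : Crit A N₁ N₂ := by
  rintro m _ l _ B C hB hC ⟨g, gs, hg⟩
  obtain ⟨iB, eB⟩ := exists_heyting B hB
  obtain ⟨iC, eC⟩ := exists_heyting C hC
  obtain ⟨E, hE⟩ := hP {q | SatR C q} (by
    intro H _ hH q hq
    apply hH
    exact sep_satR hC ((satR_ofH q).2 hq))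
  have hCE := ((@hE (Fin l) iC).1 (fun q hq => by
    rw [← @satR_ofH (Fin l) iC, eC]; exact hq)).2
  have hBE := (@hE (Fin m) iB).2 ⟨fun q hq => by
      rw [← @satR_ofH (Fin m) iB, eB]
      exact sep_satR hB ((satR_ofH q).2 hq), fun p hp v => by
      have h1 := hCE p hp
      choose w hw using gs
      have h2 := h1 (fun i => w (v i))
      rw [← @ofH_eval (Fin l) iC, ← @ofH_eval (Fin l) iC, eC] at h2
      have h3 := congrArg g h2
      rw [hg.eval, hg.eval] at h3
      simp only [hw] at h3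
      rw [← @ofH_eval (Fin m) iB, ← @ofH_eval (Fin m) iB, eB]
      exact h3⟩
  refine sep_of_satR (hB.good (good_ofH A)) (hC.good (good_ofH A)) fun q hq => ?_
  have h1 := hBE q hq
  rwa [← @satR_ofH (Fin m) iB, eB] at h1

/-- Bounds for the variables of a quasi-identity. -/
theorem exists_bound_qid (q : QId) : ∃ k, (∀ p ∈ q.1, p.1.subst (trunc k) = p.1 ∧
    p.2.subst (trunc k) = p.2) ∧ q.2.1.subst (trunc k) = q.2.1 ∧
    q.2.2.subst (trunc k) = q.2.2 := by
  classical
  obtain ⟨k, hk⟩ := exists_bound_finset (q.1.image Prod.fst ∪ q.1.image Prod.snd ∪ {q.2.1, q.2.2})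
  have hk' := hk k le_rfl
  refine ⟨k, fun p hp => ⟨hk' _ ?_, hk' _ ?_⟩, hk' _ ?_, hk' _ ?_⟩
  · exact Finset.mem_union_left _ (Finset.mem_union_left _ (Finset.mem_image_of_mem _ hp))
  · exact Finset.mem_union_left _ (Finset.mem_union_right _ (Finset.mem_image_of_mem _ hp))
  · simp
  · simp

/-- Quotients of the formula algebra by a fully invariant equational theory containing the
identities of `A` (in `k` variables). -/
theorem free_exists {n : ℕ} (e : A ≃ Fin n) (r : Fm → Fm → Prop) (hr : Equivalence r)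
    (hand : ∀ a a' b b', r a a' → r b b' → r (Fm.and a b) (Fm.and a' b'))
    (hor : ∀ a a' b b', r a a' → r b b' → r (Fm.or a b) (Fm.or a' b'))
    (himp : ∀ a a' b b', r a a' → r b b' → r (Fm.imp a b) (Fm.imp a' b'))
    (k : ℕ)
    (hid : ∀ a b, (∀ u : ℕ → A, (a.subst (trunc k)).eval u = (b.subst (trunc k)).eval u) →
      r a b) :
    ∃ (l : ℕ) (R : RA (Fin l)) (cl : Fm → Fin l), l ≤ n ^ (n ^ k) ∧
      Function.Surjective cl ∧ IsHom fm R cl ∧ ∀ φ ψ, cl φ = cl ψ ↔ r φ ψ := by
  classical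
  let _ : Fintype A := Fintype.ofEquiv _ e.symm
  have hcard : Fintype.card A = n := by
    rw [Fintype.card_congr e, Fintype.card_fin]
  have hK : Fintype.card ((Fin k → A) → A) = n ^ (n ^ k) := by
    simp [Fintype.card_pi, hcard]
  rw [← hK]
  refine quot_exists r hr hand hor himp
    (fun φ v => φ.eval (fun i => if h : i < k then v ⟨i, h⟩ else ⊥)) ?_
  intro φ ψ h
  apply hid
  intro u
  have h2 := congrFun h (fun i => u i)
  have h3 : (fun i => (trunc k i).eval u) =
      (fun i => if h : i < k then (fun i : Fin k => u i) ⟨i, h⟩ else ⊥) := by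
    funext i
    unfold trunc
    split_ifs <;> rfl
  rw [Fm.eval_subst, Fm.eval_subst, h3]
  exact h2

theorem primitive_of_crit {n : ℕ} (e : A ≃ Fin n) (hcrit : Crit A n (n ^ (n ^ n))) :
    Primitive A := by
  classical
  have hn : 0 < n := lt_of_le_of_lt (Nat.zero_le _) (e ⊥).2
  intro T hT
  refine ⟨{p | ∀ (H : Type) [HeytingAlgebra H], (∀ q ∈ T, QSat H q) → ISat H p}, fun H _ =>
    ⟨fun h => ⟨hT H h, fun p hp => hp H h⟩, ?_⟩⟩
  rintro ⟨hHA, hHE⟩ q hq v hv
  by_contra hne
  obtain ⟨k, hk1, hk2, hk3⟩ := exists_bound_qid q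
  -- identities of `A` hold in `H`
  have hAH : ∀ a b : Fm, (∀ u : ℕ → A, a.eval u = b.eval u) → ∀ w : ℕ → H, a.eval w = b.eval w :=
    fun a b h w => hHA (∅, (a, b)) (fun u _ => h u) w (by simp)
  -- the subalgebra generated by the first `k` values
  obtain ⟨l0, R0, cl0, -, hs0, hh0, hcl0⟩ := free_exists e
    (fun a b => (a.subst (trunc k)).eval v = (b.subst (trunc k)).eval v)
    ⟨fun _ => rfl, fun h => h.symm, fun h h' => h.trans h'⟩
    (fun a a' b b' h h' => by simp only [Fm.subst, Fm.eval]; rw [h, h'])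
    (fun a a' b b' h h' => by simp only [Fm.subst, Fm.eval]; rw [h, h'])
    (fun a a' b b' h h' => by simp only [Fm.subst, Fm.eval]; rw [h, h']) k
    (fun a b h => hAH _ _ h v)
  have hs0' := hs0
  choose rep0 hrep0 using hs0
  let j0 : Fin l0 → H := fun x => ((rep0 x).subst (trunc k)).eval v
  have hj0 : ∀ φ, j0 (cl0 φ) = (φ.subst (trunc k)).eval v := fun φ =>
    (hcl0 _ _).1 (hrep0 (cl0 φ))
  have hhomv : IsHom fm (ofH H) (fun φ => (φ.subst (trunc k)).eval v) :=
    (isHom_evalH v).comp (isHom_subst (trunc k))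
  have hj0hom : IsHom R0 (ofH H) j0 := by
    refine ⟨?_, ?_, ?_, ?_⟩
    · intro a b
      have h1 : R0.inf a b = cl0 (fm.inf (rep0 a) (rep0 b)) := by rw [hh0.inf, hrep0, hrep0]
      rw [h1, hj0]
      exact hhomv.inf _ _
    · intro a b
      have h1 : R0.sup a b = cl0 (fm.sup (rep0 a) (rep0 b)) := by rw [hh0.sup, hrep0, hrep0]
      rw [h1, hj0]
      exact hhomv.sup _ _
    · intro a b
      have h1 : R0.imp a b = cl0 (fm.imp (rep0 a) (rep0 b)) := by rw [hh0.imp, hrep0, hrep0]
      rw [h1, hj0]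
      exact hhomv.imp _ _
    · have h1 : R0.bot = cl0 fm.bot := by rw [hh0.bot]
      rw [h1, hj0]
      exact hhomv.bot
  have hsepH : Sep R0 (ofH H) := by
    intro x y hxy
    refine ⟨j0, hj0hom, fun h => hxy ?_⟩
    rw [← hrep0 x, ← hrep0 y, hcl0]
    exact h
  have hsep0 : Sep R0 (ofH A) := by
    refine sep_of_satR (hsepH.good (good_ofH H)) (good_ofH A) fun q' hq' => ?_
    refine sep_satR hsepH ((satR_ofH q').2 (hHA q' ((satR_ofH q').1 hq')))
  have hne0 : cl0 q.2.1 ≠ cl0 q.2.2 := by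
    intro h
    rw [hcl0, hk2, hk3] at h
    exact hne h
  obtain ⟨f, hf, hfne⟩ := hsep0 _ _ hne0
  -- the algebra `B`
  obtain ⟨m, B, clB, hmle, hsB, hhB, hclB, hSepB⟩ := image_exists e (fun φ => f (cl0 φ))
    (hf.comp hh0)
  have hgoodB := hSepB.good (good_ofH A)
  choose repB hrepB using hsB
  -- `B` is an image of `R0`
  have hBE : ∀ a b : Fm, (∀ w : ℕ → H, a.eval w = b.eval w) → ∀ w : ℕ → Fin m,
      B.eval w a = B.eval w b := by
    intro a b hab w
    have h1 : ∀ φ : Fm, B.eval w φ = clB (φ.subst (fun i => repB (w i))) := by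
      intro φ
      rw [← fm_eval, hhB.eval]
      simp only [hrepB]
    rw [h1, h1, hclB]
    congr 1
    rw [hcl0, Fm.subst_subst, Fm.subst_subst, Fm.eval_subst, Fm.eval_subst]
    exact hab _
  -- the free algebra `C`
  obtain ⟨l, C, cl, hl, hs, hh, hcl⟩ := free_exists e
    (fun a b => ∀ (G : Type) [HeytingAlgebra G], (∀ q ∈ T, QSat G q) → ∀ u : ℕ → G,
      (a.subst (trunc m)).eval u = (b.subst (trunc m)).eval u)
    ⟨fun _ _ _ _ _ => rfl, fun h G _ hG u => (h G hG u).symm,
      fun h h' G _ hG u => (h G hG u).trans (h' G hG u)⟩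
    (fun a a' b b' h h' G _ hG u => by simp only [Fm.subst, Fm.eval]; rw [h G hG u, h' G hG u])
    (fun a a' b b' h h' G _ hG u => by simp only [Fm.subst, Fm.eval]; rw [h G hG u, h' G hG u])
    (fun a a' b b' h h' G _ hG u => by simp only [Fm.subst, Fm.eval]; rw [h G hG u, h' G hG u])
    m (fun a b h G _ hG u => hT G hG (∅, (a.subst (trunc m), b.subst (trunc m)))
      (fun u _ => h u) u (by simp))
  have hs' := hs
  choose rep hrep using hs
  have hCsat : ∀ q' : QId, (∀ (G : Type) [HeytingAlgebra G], (∀ q ∈ T, QSat G q) → QSat G q') →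
      SatR C q' := by
    intro q' hq' w hw
    have key : ∀ φ : Fm, C.eval w φ = cl (φ.subst (fun i => rep (w i))) := by
      intro φ
      rw [← fm_eval, hh.eval]
      simp only [hrep]
    rw [key, key, hcl]
    intro G _ hG u
    rw [Fm.subst_subst, Fm.subst_subst, Fm.eval_subst, Fm.eval_subst]
    apply hq' G hG
    intro p hp
    have h1 := hw p hp
    rw [key, key, hcl] at h1
    have h2 := h1 G hG u
    rwa [Fm.subst_subst, Fm.subst_subst, Fm.eval_subst, Fm.eval_subst] at h2
  have hgoodC : Good C := good_of_laws C (hCsat _ fun G _ _ => (laws_H G).1)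
    (hCsat _ fun G _ _ => (laws_H G).2)
  have hSepC : Sep C (ofH A) := by
    refine sep_of_satR hgoodC (good_ofH A) fun q' hq' => hCsat q' fun G _ hG => ?_
    exact hT G hG q' ((satR_ofH q').1 hq')
  have hNN : n ^ (n ^ m) ≤ n ^ (n ^ n) :=
    Nat.pow_le_pow_right hn (Nat.pow_le_pow_right hn hmle)
  let vB : ℕ → Fin m := fun j => if h : j < m then ⟨j, h⟩ else B.bot
  have hvB : ∀ φ : Fm, B.eval vB (φ.subst (trunc m)) = B.eval vB φ := by
    intro φ
    rw [eval_subst]
    congr 1
    funext i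
    simp only [trunc, vB]
    split_ifs with h
    · simp [RA.eval, h]
    · rfl
  have hsepBC : Sep B C := by
    refine hcrit m hmle l (hl.trans hNN) B C hSepB hSepC ?_
    have hwd : ∀ φ, B.eval vB (rep (cl φ)) = B.eval vB φ := by
      intro φ
      have h1 := (hcl _ _).1 (hrep (cl φ))
      have h2 := hHE (((rep (cl φ)).subst (trunc m)), (φ.subst (trunc m)))
        (fun G _ hG u => h1 G hG u)
      have h3 := hBE _ _ h2 vB
      rwa [hvB, hvB] at h3
    have hhomvB := isHom_eval B vB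
    refine ⟨fun x => B.eval vB (rep x), fun j => ⟨cl (Fm.var j), ?_⟩, ⟨?_, ?_, ?_, ?_⟩⟩
    · simp only
      rw [hwd]
      simp [RA.eval, vB]
    · intro a b
      have h1 : C.inf a b = cl (fm.inf (rep a) (rep b)) := by rw [hh.inf, hrep, hrep]
      rw [h1, hwd]
      exact hhomvB.inf _ _
    · intro a b
      have h1 : C.sup a b = cl (fm.sup (rep a) (rep b)) := by rw [hh.sup, hrep, hrep]
      rw [h1, hwd]
      exact hhomvB.sup _ _
    · intro a b
      have h1 : C.imp a b = cl (fm.imp (rep a) (rep b)) := by rw [hh.imp, hrep, hrep]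
      rw [h1, hwd]
      exact hhomvB.imp _ _
    · have h1 : C.bot = cl fm.bot := by rw [hh.bot]
      rw [h1, hwd]
      exact hhomvB.bot
  -- conclusion
  have hBq : SatR B q := sep_satR hsepBC (hCsat q fun G _ hG => hG q hq)
  have key : ∀ φ : Fm, B.eval (fun i => clB (Fm.var i)) φ = clB φ := by
    intro φ
    have h1 := hhB.eval Fm.var φ
    rw [← h1, fm_eval, Fm.subst_var]
  have h9 := hBq (fun i => clB (Fm.var i)) (fun p hp => by
    rw [key, key, hclB]
    congr 1
    rw [hcl0, (hk1 p hp).1, (hk1 p hp).2]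
    exact hv p hp)
  rw [key, key, hclB] at h9
  exact hfne h9

theorem primitive_iff_crit {n : ℕ} (e : A ≃ Fin n) : Primitive A ↔ Crit A n (n ^ (n ^ n)) :=
  ⟨fun h => crit_of_primitive h _ _, primitive_of_crit e⟩

end

end Pool.Agent.X237.PQ
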